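import Mathlib
import Pool.Agent.H1.Ideals.Defs
import Pool.Agent.H1.Ideals.Proof

/-!
`MP_88803c_co`, Q1: for every cardinal `μ` there is a cardinal `ι` such that, whenever a partial
order `P` (of any size) has no antichain of cardinality `μ`, its poset of ideals has no antichain
of cardinality `ι`.
-/

universe u

namespace Pool.Agent.Results.MP_88803c_co.Exists

open Pool.Agent.H1.Ideals

theorem result : ∀ μ : Cardinal.{u}, ∃ ι : Cardinal.{u},
    ∀ (P : Type u) [PartialOrder P], InD μ P → InD ι (Order.Ideal P) :=
  fun μ => main μ

end Pool.Agent.Results.MP_88803c_co.Exists
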