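import Pool.Agent.H0.Idl.Defs
import Pool.Agent.H0.Idl.Main

set_option autoImplicit false
open Cardinal

universe u

namespace Pool.Agent.Results.MP_88803c_co.IdealAntichains

open Pool.Agent.Idl

/-- For every cardinal `μ` there is a cardinal `i(μ)` such that `P ∈ 𝒟(μ)` implies `I(P) ∈ 𝒟(i(μ))`
(`I(P) = Order.Ideal P`, ordered by inclusion); for infinite `μ` one can take `i(μ) = (2^(2^μ))⁺`. -/
theorem result :
    (∀ μ : Cardinal.{u}, ∃ i : Cardinal.{u}, ∀ (P : Type u) [PartialOrder P],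
      InD μ P → InD i (Order.Ideal P)) ∧
    (∀ μ : Cardinal.{u}, ℵ₀ ≤ μ → ∀ (P : Type u) [PartialOrder P],
      InD μ P → InD (Order.succ ((2 : Cardinal.{u}) ^ ((2 : Cardinal.{u}) ^ μ))) (Order.Ideal P)) := by
  have key : ∀ μ : Cardinal.{u}, ℵ₀ ≤ μ → ∀ (P : Type u) [PartialOrder P],
      InD μ P → InD (Order.succ ((2 : Cardinal.{u}) ^ ((2 : Cardinal.{u}) ^ μ))) (Order.Ideal P) := by
    intro μ hμ P _ hP
    rintro ⟨𝒜, h𝒜, hcard⟩
    have hP' : ∀ A : Set P, IsAntichain (· ≤ ·) A → #A < μ := by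
      intro A hA
      by_contra hcon
      push Not at hcon
      obtain ⟨B, hBA, hB⟩ := (Cardinal.le_mk_iff_exists_subset).1 hcon
      exact hP ⟨B, hA.subset hBA, hB⟩
    have h := core hμ hP' (Λ := 𝒜) (fun i => (i : Order.Ideal P)) (by
      intro i j hij hle
      exact h𝒜 i.2 j.2 (fun h => hij (Subtype.ext h)) hle)
    rw [hcard] at h
    exact absurd h (not_le.2 (Order.lt_succ _))
  refine ⟨fun μ => ?_, key⟩
  refine ⟨Order.succ ((2 : Cardinal.{u}) ^ ((2 : Cardinal.{u}) ^ (max μ ℵ₀))), fun P _ hP => ?_⟩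
  apply key (max μ ℵ₀) (le_max_right _ _) P
  rintro ⟨A, hA, hcard⟩
  obtain ⟨B, hBA, hB⟩ := (Cardinal.le_mk_iff_exists_subset (c := μ) (s := A)).1 (by rw [hcard]; exact le_max_left _ _)
  exact hP ⟨B, hA.subset hBA, hB⟩

end Pool.Agent.Results.MP_88803c_co.IdealAntichains
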